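import Mathlib

/-! Uniform saturation exponent (Noetherian Rees ring) for sumset modules. -/

open Pointwise Polynomial

namespace OKU

variable {C E Z ι : Type} [CommRing C] [CommRing E] [Algebra C E] [AddCommMonoid Z] [DecidableEq Z]

/-- span of the monomials with exponent in `P` -/
def V (C : Type) [CommRing C] [Algebra C E] (mono : Z → E) (P : Finset Z) : Submodule C E :=
  Submodule.span C (mono '' (P : Set Z))

/-- `f = ∑ s l * g l` with all `g l` in `V P` -/
def W (C : Type) [CommRing C] [Algebra C E] (mono : Z → E) (J : Finset ι) (s : ι → E)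
    (P : Finset Z) (f : E) : Prop :=
  ∃ g : ι → E, (∀ l, g l ∈ V C mono P) ∧ f = ∑ l ∈ J, s l * g l

theorem mono_mem {mono : Z → E} {P : Finset Z} {z : Z} (h : z ∈ P) : mono z ∈ V C mono P :=
  Submodule.subset_span ⟨z, h, rfl⟩

theorem V_mono {mono : Z → E} {P Q : Finset Z} (h : P ⊆ Q) : V C mono P ≤ V C mono Q :=
  Submodule.span_mono (Set.image_mono (by exact_mod_cast h))

theorem mul_mem_V {mono : Z → E} (hm : ∀ a b, mono (a + b) = mono a * mono b) {P Q : Finset Z}
    {f g : E} (hf : f ∈ V C mono P) (hg : g ∈ V C mono Q) : f * g ∈ V C mono (P + Q) := by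
  have h := Submodule.mul_mem_mul hf hg
  unfold V at h ⊢
  rw [Submodule.span_mul_span] at h
  refine Submodule.span_mono ?_ h
  rintro _ ⟨_, ⟨a, ha, rfl⟩, _, ⟨b, hb, rfl⟩, rfl⟩
  exact ⟨a + b, by exact_mod_cast Finset.add_mem_add ha hb, hm a b⟩

theorem mono_mul_mem {mono : Z → E} (hm : ∀ a b, mono (a + b) = mono a * mono b) {P Q : Finset Z}
    {a : Z} (h : ∀ z ∈ P, a + z ∈ Q) {f : E} (hf : f ∈ V C mono P) : mono a * f ∈ V C mono Q := by
  have h1 := mul_mem_V hm (mono_mem (C := C) (Finset.mem_singleton_self a)) hf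
  refine V_mono ?_ h1
  intro w hw
  obtain ⟨b, hb, z, hz, rfl⟩ := Finset.mem_add.1 hw
  rw [Finset.mem_singleton.1 hb]
  exact h z hz

section Wl
variable {mono : Z → E} {J : Finset ι} {s : ι → E}

theorem W_zero (P : Finset Z) : W C mono J s P 0 :=
  ⟨fun _ => 0, fun _ => Submodule.zero_mem _, by simp⟩

theorem W_add {P : Finset Z} {f g : E} (hf : W C mono J s P f) (hg : W C mono J s P g) :
    W C mono J s P (f + g) := by
  obtain ⟨a, ha, rfl⟩ := hf
  obtain ⟨b, hb, rfl⟩ := hg
  exact ⟨fun l => a l + b l, fun l => Submodule.add_mem _ (ha l) (hb l), by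
    simp [mul_add, Finset.sum_add_distrib]⟩

theorem W_smul {P : Finset Z} {f : E} (c : C) (hf : W C mono J s P f) :
    W C mono J s P (algebraMap C E c * f) := by
  obtain ⟨a, ha, rfl⟩ := hf
  refine ⟨fun l => c • a l, fun l => Submodule.smul_mem _ _ (ha l), ?_⟩
  rw [Finset.mul_sum]
  refine Finset.sum_congr rfl fun l _ => ?_
  simp only [Algebra.smul_def]; ring

theorem W_mul (hm : ∀ a b, mono (a + b) = mono a * mono b) {P Q R : Finset Z} {f g : E}
    (hg : g ∈ V C mono Q) (hf : W C mono J s P f) (h : Q + P ⊆ R) : W C mono J s R (g * f) := by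
  obtain ⟨b, hb, rfl⟩ := hf
  refine ⟨fun l => g * b l, fun l => V_mono h (mul_mem_V hm hg (hb l)), ?_⟩
  rw [Finset.mul_sum]
  refine Finset.sum_congr rfl fun l _ => ?_
  ring

theorem W_sum {P : Finset Z} {κ : Type} (t : Finset κ) (f : κ → E)
    (h : ∀ i ∈ t, W C mono J s P (f i)) : W C mono J s P (∑ i ∈ t, f i) :=
  Finset.sum_induction f (W C mono J s P) (fun _ _ => W_add) (W_zero P) h

end Wl

/-- the bigraded evaluation of the Rees ring -/
noncomputable def Pi2 (C : Type) [CommRing C] [Algebra C E] (mono : Z → E) (A B : Finset Z) :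
    MvPolynomial (A ⊕ B) C →ₐ[C] E[X][X] :=
  MvPolynomial.aeval (Sum.elim (fun a => monomial 1 (Polynomial.C (mono a)))
    (fun b => Polynomial.C (monomial 1 (mono b))))

/-- coefficient of bidegree `(x, y)` -/
noncomputable def cf (C : Type) [CommRing C] [Algebra C E] (mono : Z → E) (A B : Finset Z)
    (q : MvPolynomial (A ⊕ B) C) (x y : ℕ) : E :=
  ((Pi2 C mono A B q).coeff x).coeff y

section cfl
variable {mono : Z → E} {A B : Finset Z}

theorem cf_add (p q : MvPolynomial (A ⊕ B) C) (x y : ℕ) :
    cf C mono A B (p + q) x y = cf C mono A B p x y + cf C mono A B q x y := by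
  simp [cf]

theorem cf_zero (x y : ℕ) : cf C mono A B 0 x y = 0 := by simp [cf]

theorem cf_C_mul (c : C) (q : MvPolynomial (A ⊕ B) C) (x y : ℕ) :
    cf C mono A B (MvPolynomial.C c * q) x y = algebraMap C E c * cf C mono A B q x y := by
  simp [cf, Pi2, Polynomial.algebraMap_apply]

theorem cf_A_zero (a : A) (q : MvPolynomial (A ⊕ B) C) (y : ℕ) :
    cf C mono A B (MvPolynomial.X (Sum.inl a) * q) 0 y = 0 := by
  simp [cf, Pi2, ← Polynomial.C_mul_X_eq_monomial, mul_assoc]

theorem cf_A_succ (a : A) (q : MvPolynomial (A ⊕ B) C) (x y : ℕ) :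
    cf C mono A B (MvPolynomial.X (Sum.inl a) * q) (x + 1) y = mono a * cf C mono A B q x y := by
  simp [cf, Pi2, ← Polynomial.C_mul_X_eq_monomial, mul_assoc]

theorem cf_B_zero (b : B) (q : MvPolynomial (A ⊕ B) C) (x : ℕ) :
    cf C mono A B (MvPolynomial.X (Sum.inr b) * q) x 0 = 0 := by
  simp only [cf, Pi2, map_mul, MvPolynomial.aeval_X, Sum.elim_inr, Polynomial.coeff_C_mul]
  simp [← Polynomial.C_mul_X_eq_monomial, mul_assoc]

theorem cf_B_succ (b : B) (q : MvPolynomial (A ⊕ B) C) (x y : ℕ) :
    cf C mono A B (MvPolynomial.X (Sum.inr b) * q) x (y + 1) = mono b * cf C mono A B q x y := by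
  simp only [cf, Pi2, map_mul, MvPolynomial.aeval_X, Sum.elim_inr, Polynomial.coeff_C_mul]
  simp [← Polynomial.C_mul_X_eq_monomial, mul_assoc]

theorem cf_C (c : C) (x y : ℕ) :
    cf C mono A B (MvPolynomial.C c) x y = if x = 0 ∧ y = 0 then algebraMap C E c else 0 := by
  simp only [cf, Pi2, MvPolynomial.algHom_C, Polynomial.algebraMap_apply, Polynomial.coeff_C]
  by_cases hx : x = 0 <;> by_cases hy : y = 0 <;> simp [hx, hy, Polynomial.coeff_C]

theorem add_mem_succA {a z : Z} {x y : ℕ} (ha : a ∈ A) (hz : z ∈ x • A + y • B) :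
    a + z ∈ (x + 1) • A + y • B := by
  rw [succ_nsmul', add_assoc]
  exact Finset.add_mem_add ha hz

theorem add_mem_succB {b z : Z} {x y : ℕ} (hb : b ∈ B) (hz : z ∈ x • A + y • B) :
    b + z ∈ x • A + (y + 1) • B := by
  rw [succ_nsmul', add_left_comm]
  exact Finset.add_mem_add hb hz

theorem cf_mem (h0 : mono 0 = 1) (hm : ∀ a b, mono (a + b) = mono a * mono b)
    (q : MvPolynomial (A ⊕ B) C) : ∀ x y, cf C mono A B q x y ∈ V C mono (x • A + y • B) := by
  induction q using MvPolynomial.induction_on with
  | C c =>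
    intro x y
    rw [cf_C]
    split_ifs with h
    · obtain ⟨rfl, rfl⟩ := h
      rw [Algebra.algebraMap_eq_smul_one, ← h0]
      exact Submodule.smul_mem _ _ (mono_mem (by simp))
    · exact Submodule.zero_mem _
  | add p q hp hq => intro x y; rw [cf_add]; exact Submodule.add_mem _ (hp x y) (hq x y)
  | mul_X p i hp =>
    intro x y
    rw [mul_comm]
    rcases i with a | b
    · rcases x with _ | x
      · rw [cf_A_zero]; exact Submodule.zero_mem _
      · rw [cf_A_succ]
        exact mono_mul_mem hm (fun z hz => add_mem_succA a.2 hz) (hp x y)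
    · rcases y with _ | y
      · rw [cf_B_zero]; exact Submodule.zero_mem _
      · rw [cf_B_succ]
        exact mono_mul_mem hm (fun z hz => add_mem_succB b.2 hz) (hp x y)

theorem lift_mono (h0 : mono 0 = 1) (hm : ∀ a b, mono (a + b) = mono a * mono b) (x y : ℕ) :
    ∀ z ∈ x • A + y • B, ∃ q, Pi2 C mono A B q = monomial x (monomial y (mono z)) := by
  induction x with
  | zero =>
    induction y with
    | zero =>
      intro z hz
      have : z = 0 := by simpa using hz
      subst this
      exact ⟨1, by simp [h0]⟩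
    | succ y ih =>
      intro z hz
      rw [succ_nsmul', add_left_comm] at hz
      obtain ⟨b, hb, w, hw, rfl⟩ := Finset.mem_add.1 hz
      obtain ⟨q, hq⟩ := ih w hw
      refine ⟨MvPolynomial.X (Sum.inr ⟨b, hb⟩) * q, ?_⟩
      rw [map_mul, hq]
      simp only [Pi2, MvPolynomial.aeval_X, Sum.elim_inr, Polynomial.C_mul_monomial,
        Polynomial.monomial_mul_monomial, hm, add_comm 1 y]
  | succ x ih =>
    intro z hz
    rw [succ_nsmul', add_assoc] at hz
    obtain ⟨a, ha, w, hw, rfl⟩ := Finset.mem_add.1 hz
    obtain ⟨q, hq⟩ := ih w hw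
    refine ⟨MvPolynomial.X (Sum.inl ⟨a, ha⟩) * q, ?_⟩
    rw [map_mul, hq]
    simp only [Pi2, MvPolynomial.aeval_X, Sum.elim_inl, Polynomial.C_mul_monomial,
      Polynomial.monomial_mul_monomial, hm, add_comm 1 x]

theorem lift_V (h0 : mono 0 = 1) (hm : ∀ a b, mono (a + b) = mono a * mono b) (x y : ℕ) {f : E}
    (hf : f ∈ V C mono (x • A + y • B)) :
    ∃ q, Pi2 C mono A B q = monomial x (monomial y f) := by
  induction hf using Submodule.span_induction with
  | mem f hf =>
    obtain ⟨z, hz, rfl⟩ := hf
    exact lift_mono h0 hm x y z (by exact_mod_cast hz)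
  | zero => exact ⟨0, by simp⟩
  | add f g _ _ hf hg =>
    obtain ⟨p, hp⟩ := hf
    obtain ⟨q, hq⟩ := hg
    exact ⟨p + q, by simp [hp, hq]⟩
  | smul c f _ hf =>
    obtain ⟨p, hp⟩ := hf
    refine ⟨c • p, ?_⟩
    rw [map_smul, hp, Polynomial.smul_monomial, Polynomial.smul_monomial]

end cfl

/-- elements all of whose bihomogeneous parts are combinations of the `s l` -/
def Good (C : Type) [CommRing C] [Algebra C E] (mono : Z → E) (A B : Finset Z) (J : Finset ι)
    (s : ι → E) (q : MvPolynomial (A ⊕ B) C) : Prop :=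
  (∀ y, cf C mono A B q 0 y = 0) ∧
    ∀ x y, W C mono J s (x • A + y • B) (cf C mono A B q (x + 1) y)

theorem good_mul {mono : Z → E} {A B : Finset Z} {J : Finset ι} {s : ι → E}
    (hm : ∀ a b, mono (a + b) = mono a * mono b) {q : MvPolynomial (A ⊕ B) C}
    (hq : Good C mono A B J s q) (r : MvPolynomial (A ⊕ B) C) : Good C mono A B J s (r * q) := by
  induction r using MvPolynomial.induction_on with
  | C c =>
    exact ⟨fun y => by rw [cf_C_mul, hq.1, mul_zero], fun x y => by
      rw [cf_C_mul]; exact W_smul c (hq.2 x y)⟩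
  | add p r hp hr =>
    exact ⟨fun y => by rw [add_mul, cf_add, hp.1, hr.1, add_zero], fun x y => by
      rw [add_mul, cf_add]; exact W_add (hp.2 x y) (hr.2 x y)⟩
  | mul_X p i hp =>
    rw [mul_comm p, mul_assoc]
    rcases i with a | b
    · refine ⟨fun y => cf_A_zero a _ y, fun x y => ?_⟩
      rw [cf_A_succ]
      rcases x with _ | x
      · rw [hp.1, mul_zero]; exact W_zero _
      · refine W_mul hm (mono_mem (Finset.mem_singleton_self _)) (hp.2 x y) ?_
        intro w hw
        obtain ⟨a', ha', z, hz, rfl⟩ := Finset.mem_add.1 hw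
        rw [Finset.mem_singleton.1 ha']
        exact add_mem_succA a.2 hz
    · refine ⟨fun y => ?_, fun x y => ?_⟩
      · rcases y with _ | y
        · exact cf_B_zero b _ 0
        · rw [cf_B_succ, hp.1, mul_zero]
      · rcases y with _ | y
        · rw [cf_B_zero]; exact W_zero _
        · rw [cf_B_succ]
          refine W_mul hm (mono_mem (Finset.mem_singleton_self _)) (hp.2 x y) ?_
          intro w hw
          obtain ⟨a', ha', z, hz, rfl⟩ := Finset.mem_add.1 hw
          rw [Finset.mem_singleton.1 ha']
          exact add_mem_succB b.2 hz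

theorem cf_pow {mono : Z → E} {A B : Finset Z} (h0 : mono 0 = 1)
    (hm : ∀ a b, mono (a + b) = mono a * mono b) (a : A) (q : MvPolynomial (A ⊕ B) C) (k : ℕ) :
    (∀ x y, x < k → cf C mono A B (MvPolynomial.X (Sum.inl a) ^ k * q) x y = 0) ∧
    ∀ x y, cf C mono A B (MvPolynomial.X (Sum.inl a) ^ k * q) (x + k) y =
      mono (k • (a : Z)) * cf C mono A B q x y := by
  induction k with
  | zero => exact ⟨fun x y h => absurd h (Nat.not_lt_zero x), fun x y => by simp [h0]⟩
  | succ k ih =>
    refine ⟨fun x y h => ?_, fun x y => ?_⟩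
    · rw [pow_succ', mul_assoc]
      rcases x with _ | x
      · exact cf_A_zero a _ y
      · rw [cf_A_succ, ih.1 x y (by omega), mul_zero]
    · rw [pow_succ', mul_assoc, ← add_assoc, cf_A_succ, ih.2, succ_nsmul', hm, mul_assoc]

theorem unif [IsNoetherianRing C] {mono : Z → E} (h0 : mono 0 = 1)
    (hm : ∀ a b, mono (a + b) = mono a * mono b) (A B : Finset Z) (I : Ideal E) (J : Finset ι)
    (s : ι → E)
    (hsat : ∀ (P : Finset Z) (f : E), f ∈ V C mono P → f ∈ I → ∀ a ∈ A, ∃ k : ℕ,
      W C mono J s (k • A + P) (mono ((k + 1) • a) * f)) :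
    ∃ x0 : ℕ, ∀ (x y : ℕ) (f : E), x0 < x → f ∈ V C mono (x • A + y • B) → f ∈ I →
      W C mono J s ((x - 1) • A + y • B) f := by
  classical
  set I2 : Ideal (MvPolynomial (A ⊕ B) C) :=
    Ideal.comap (Pi2 C mono A B) (Ideal.map Polynomial.C (Ideal.map Polynomial.C I)) with hI2
  have memI : ∀ q, q ∈ I2 ↔ ∀ x y, cf C mono A B q x y ∈ I := by
    intro q
    rw [hI2, Ideal.mem_comap, Ideal.mem_map_C_iff]
    refine forall_congr' fun x => ?_
    rw [Ideal.mem_map_C_iff]
    rfl
  obtain ⟨F, hF⟩ : I2.FG := IsNoetherian.noetherian I2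
  -- saturation, eventually in `k`
  have hev : ∀ (P : Finset Z) (f : E), f ∈ V C mono P → f ∈ I → ∀ a ∈ A,
      ∀ᶠ k : ℕ in Filter.atTop, W C mono J s (k • A + P) (mono ((k + 1) • a) * f) := by
    intro P f hf hfI a ha
    obtain ⟨k0, hk0⟩ := hsat P f hf hfI a ha
    refine Filter.eventually_atTop.2 ⟨k0, fun k hk => ?_⟩
    induction k, hk using Nat.le_induction with
    | base => exact hk0
    | succ k _ ih =>
      rw [succ_nsmul' a (k + 1), hm, mul_assoc]
      refine W_mul hm (mono_mem (Finset.mem_singleton_self _)) ih ?_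
      intro w hw
      obtain ⟨a', ha', z, hz, rfl⟩ := Finset.mem_add.1 hw
      rw [Finset.mem_singleton.1 ha', succ_nsmul', add_assoc]
      exact Finset.add_mem_add ha hz
  have hgen : ∀ᶠ k : ℕ in Filter.atTop, ∀ p ∈ F, ∀ a : A,
      Good C mono A B J s (MvPolynomial.X (Sum.inl a) ^ (k + 1) * p) := by
    rw [Filter.eventually_all_finset]
    intro p hp
    rw [Filter.eventually_all]
    intro a
    have hpI : ∀ x y, cf C mono A B p x y ∈ I :=
      (memI p).1 (hF ▸ Ideal.subset_span hp)
    have h1 : ∀ᶠ k : ℕ in Filter.atTop, ∀ x ∈ (Pi2 C mono A B p).support,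
        ∀ y ∈ ((Pi2 C mono A B p).coeff x).support,
        W C mono J s (k • A + (x • A + y • B)) (mono ((k + 1) • (a : Z)) * cf C mono A B p x y) := by
      rw [Filter.eventually_all_finset]
      intro x _
      rw [Filter.eventually_all_finset]
      intro y _
      exact hev _ _ (cf_mem h0 hm p x y) (hpI x y) a a.2
    filter_upwards [h1] with k hk
    refine ⟨fun y => (cf_pow h0 hm a p (k + 1)).1 0 y (by omega), fun x y => ?_⟩
    rcases lt_or_ge x k with h | h
    · rw [(cf_pow h0 hm a p (k + 1)).1 _ y (by omega)]; exact W_zero _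
    · obtain ⟨x, rfl⟩ := Nat.exists_eq_add_of_le' h
      rw [add_assoc, (cf_pow h0 hm a p (k + 1)).2]
      by_cases hz : cf C mono A B p x y = 0
      · rw [hz, mul_zero]; exact W_zero _
      · have hy : y ∈ ((Pi2 C mono A B p).coeff x).support := Polynomial.mem_support_iff.2 hz
        have hx : x ∈ (Pi2 C mono A B p).support := by
          refine Polynomial.mem_support_iff.2 fun h => hz ?_
          simp [cf, h]
        have := hk x hx y hy
        rwa [← add_assoc, ← add_nsmul, add_comm k x] at this
  obtain ⟨k, hk⟩ := hgen.exists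
  refine ⟨A.card * k + F.sup (fun p => (Pi2 C mono A B p).natDegree), fun x y f hx hf hfI => ?_⟩
  obtain ⟨x, rfl⟩ : ∃ x', x = x' + 1 := ⟨x - 1, by omega⟩
  rw [Nat.add_sub_cancel]
  obtain ⟨q, hq⟩ := lift_V h0 hm (x + 1) y hf
  have hqI : q ∈ Ideal.span (F : Set (MvPolynomial (A ⊕ B) C)) := by
    rw [hF, memI]
    intro x' y'
    rw [cf, hq, Polynomial.coeff_monomial]
    split_ifs
    · rw [Polynomial.coeff_monomial]
      split_ifs
      · exact hfI
      · exact I.zero_mem
    · simp
  have key : ∀ r, W C mono J s (x • A + y • B) (cf C mono A B (r * q) (x + 1) y) := by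
    clear hq
    induction hqI using Submodule.span_induction with
    | mem p hp =>
      intro r
      induction r using MvPolynomial.monomial_add_induction_on with
      | C c =>
        have : cf C mono A B p (x + 1) y = 0 := by
          have h1 : (Pi2 C mono A B p).natDegree ≤ _ :=
            Finset.le_sup (f := fun p => (Pi2 C mono A B p).natDegree) (show p ∈ F from hp)
          have h2 : (Pi2 C mono A B p).natDegree < x + 1 := by omega
          rw [cf, Polynomial.coeff_eq_zero_of_natDegree_lt h2, Polynomial.coeff_zero]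
        rw [cf_C_mul, this, mul_zero]; exact W_zero _
      | monomial_add m c r _ _ ih =>
        rw [add_mul, cf_add]
        refine W_add ?_ ih
        by_cases hbig : ∃ a : A, k + 1 ≤ m (Sum.inl a)
        · obtain ⟨a, ha⟩ := hbig
          have hle : Finsupp.single (Sum.inl a : A ⊕ B) (k + 1) ≤ m := by
            rw [Finsupp.single_le_iff]; exact ha
          have : MvPolynomial.monomial m c = MvPolynomial.monomial
              (m - Finsupp.single (Sum.inl a : A ⊕ B) (k + 1)) c *
              MvPolynomial.X (Sum.inl a) ^ (k + 1) := by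
            rw [MvPolynomial.X_pow_eq_monomial, MvPolynomial.monomial_mul, mul_one,
              tsub_add_cancel_of_le hle]
          rw [this, mul_assoc]
          exact (good_mul hm (hk p hp a) _).2 x y
        · push Not at hbig
          have hd : (Pi2 C mono A B (MvPolynomial.monomial m c)).natDegree ≤ A.card * k := by
            rw [Pi2, MvPolynomial.aeval_monomial, Finsupp.prod_fintype _ _ (by simp),
              Fintype.prod_sum_type]
            refine Polynomial.natDegree_mul_le.trans ?_
            have e1 : (algebraMap C E[X][X] c).natDegree = 0 := by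
              rw [Polynomial.algebraMap_apply]; exact Polynomial.natDegree_C _
            rw [e1, zero_add]
            refine Polynomial.natDegree_mul_le.trans ?_
            have e2 : (∏ b : B, (Polynomial.C (monomial 1 (mono b)) : E[X][X]) ^ m (Sum.inr b)
                ).natDegree = 0 := by
              simp only [← map_pow]
              rw [← map_prod]
              exact Polynomial.natDegree_C _
            simp only [Sum.elim_inl, Sum.elim_inr]
            rw [e2, add_zero]
            refine (Polynomial.natDegree_prod_le _ _).trans ?_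
            have e3 : ∀ a ∈ (Finset.univ : Finset A),
                ((monomial 1 (Polynomial.C (mono a)) : E[X][X]) ^ m (Sum.inl a)).natDegree ≤ k := by
              intro a _
              refine Polynomial.natDegree_pow_le.trans ?_
              have := Polynomial.natDegree_monomial_le (m := 1) (Polynomial.C (mono a) : E[X])
              have h2 := hbig a
              nlinarith
            refine (Finset.sum_le_card_nsmul _ _ _ e3).trans ?_
            simp
          have h1 : (Pi2 C mono A B p).natDegree ≤ _ :=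
            Finset.le_sup (f := fun p => (Pi2 C mono A B p).natDegree) (show p ∈ F from hp)
          have h2 : (Pi2 C mono A B (MvPolynomial.monomial m c * p)).natDegree < x + 1 := by
            rw [map_mul]
            exact lt_of_le_of_lt Polynomial.natDegree_mul_le (by omega)
          rw [cf, Polynomial.coeff_eq_zero_of_natDegree_lt h2, Polynomial.coeff_zero]
          exact W_zero _
    | zero => intro r; rw [mul_zero, cf_zero]; exact W_zero _
    | add p p' _ _ hp hp' => intro r; rw [mul_add, cf_add]; exact W_add (hp r) (hp' r)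
    | smul c p _ hp => intro r; rw [smul_eq_mul, ← mul_assoc]; exact hp _
  have := key 1
  rwa [one_mul, cf, hq, Polynomial.coeff_monomial, if_pos rfl, Polynomial.coeff_monomial,
    if_pos rfl] at this

/-- saturation by the substitution `c ↦ c - mono (-a) * s l` -/
theorem sat {C0 E Z ι σ : Type} [CommRing C0] [CommRing E] [Algebra (MvPolynomial σ C0) E]
    [AddCommGroup Z] [DecidableEq Z] {mono : Z → E} (h0 : mono 0 = 1)
    (hm : ∀ a b, mono (a + b) = mono a * mono b) (A : Finset Z) (J : Finset ι) (s : ι → E)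
    (hs : ∀ l, s l ∈ V (MvPolynomial σ C0) mono A) (a : Z) (ha : a ∈ A) (ρ : E →+* E)
    (hρm : ∀ z, ρ (mono z) = mono z)
    (hρC : ∀ c : C0, ρ (algebraMap (MvPolynomial σ C0) E (MvPolynomial.C c)) =
      algebraMap (MvPolynomial σ C0) E (MvPolynomial.C c))
    (hρX : ∀ i : σ, ρ (algebraMap (MvPolynomial σ C0) E (MvPolynomial.X i)) =
        algebraMap (MvPolynomial σ C0) E (MvPolynomial.X i) ∨
      ∃ l ∈ J, ρ (algebraMap (MvPolynomial σ C0) E (MvPolynomial.X i)) =
        algebraMap (MvPolynomial σ C0) E (MvPolynomial.X i) - mono (-a) * s l)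
    (P : Finset Z) (f : E) (hf : f ∈ V (MvPolynomial σ C0) mono P) (hρf : ρ f = 0) :
    ∃ k : ℕ, W (MvPolynomial σ C0) mono J s (k • A + P) (mono ((k + 1) • a) * f) := by
  classical
  have up : ∀ (k : ℕ) (Q : Finset Z) (w : Z), w ∈ {a} + (k • A + Q) → w ∈ (k + 1) • A + Q := by
    intro k Q w hw
    obtain ⟨a', ha', z, hz, rfl⟩ := Finset.mem_add.1 hw
    rw [Finset.mem_singleton.1 ha', succ_nsmul', add_assoc]
    exact Finset.add_mem_add ha hz
  -- the property of a pair (element, image) relative to a support `Q`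
  let R : Finset Z → E → ℕ → Prop := fun Q g k =>
    W (MvPolynomial σ C0) mono J s (k • A + Q) (mono ((k + 1) • a) * (g - ρ g)) ∧
      mono (k • a) * ρ g ∈ V (MvPolynomial σ C0) mono (k • A + Q)
  have Rup : ∀ Q g k, R Q g k → R Q g (k + 1) := by
    intro Q g k h
    refine ⟨?_, ?_⟩
    · rw [succ_nsmul' a (k + 1), hm, mul_assoc]
      exact W_mul hm (mono_mem (Finset.mem_singleton_self _)) h.1 (up k Q)
    · rw [succ_nsmul' a k, hm, mul_assoc]
      exact V_mono (up k Q) (mul_mem_V hm (mono_mem (Finset.mem_singleton_self _)) h.2)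
  have Rle : ∀ Q g k k', k ≤ k' → R Q g k → R Q g k' := by
    intro Q g k k' hk h
    induction k', hk using Nat.le_induction with
    | base => exact h
    | succ k' _ ih => exact Rup Q g k' ih
  have Radd : ∀ Q g g', (∃ k, R Q g k) → (∃ k, R Q g' k) → ∃ k, R Q (g + g') k := by
    rintro Q g g' ⟨k, hk⟩ ⟨k', hk'⟩
    have h1 := Rle Q g k _ (le_max_left k k') hk
    have h2 := Rle Q g' k' _ (le_max_right k k') hk'
    refine ⟨max k k', ?_, ?_⟩
    · have := W_add h1.1 h2.1
      rw [map_add]
      convert this using 1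
      ring
    · rw [map_add, mul_add]
      exact Submodule.add_mem _ h1.2 h2.2
  have Rsc : ∀ Q g (c : MvPolynomial σ C0), (∃ k, R Q g k) →
      ∃ k, R Q (algebraMap (MvPolynomial σ C0) E c * g) k := by
    intro Q g c hg
    induction c using MvPolynomial.induction_on with
    | C c =>
      obtain ⟨k, hk⟩ := hg
      refine ⟨k, ?_, ?_⟩
      · have := W_smul (MvPolynomial.C c) hk.1
        rw [map_mul, hρC]
        convert this using 1
        ring
      · have := Submodule.smul_mem _ (MvPolynomial.C c) hk.2
        rw [map_mul, hρC]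
        convert this using 1
        rw [Algebra.smul_def]; ring
    | add p q hp hq => rw [map_add, add_mul]; exact Radd _ _ _ hp hq
    | mul_X p i hp =>
      obtain ⟨k, hk⟩ := hp
      set g' := algebraMap (MvPolynomial σ C0) E p * g with hg'
      have e : algebraMap (MvPolynomial σ C0) E (p * MvPolynomial.X i) * g =
          algebraMap (MvPolynomial σ C0) E (MvPolynomial.X i) * g' := by
        rw [hg', map_mul]; ring
      rw [e]
      rcases hρX i with h | ⟨l, hl, h⟩
      · refine ⟨k, ?_, ?_⟩
        · have := W_smul (MvPolynomial.X i) hk.1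
          rw [map_mul, h]
          convert this using 1
          ring
        · have := Submodule.smul_mem _ (MvPolynomial.X i) hk.2
          rw [map_mul, h]
          convert this using 1
          rw [Algebra.smul_def]; ring
      · have hinv : mono a * mono (-a) = 1 := by rw [← hm, add_neg_cancel, h0]
        have hk1 := Rup _ _ _ hk
        refine ⟨k + 1, ?_, ?_⟩
        · have h1 := W_smul (MvPolynomial.X i) hk1.1
          have h2 : W (MvPolynomial σ C0) mono J s ((k + 1) • A + Q)
              (s l * (mono ((k + 1) • a) * ρ g')) := by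
            refine ⟨fun l' => if l' = l then mono ((k + 1) • a) * ρ g' else 0, fun l' => ?_, ?_⟩
            · dsimp only
              split_ifs
              · exact hk1.2
              · exact Submodule.zero_mem _
            · simp [hl]
          have := W_add h1 h2
          rw [map_mul, h]
          convert this using 1
          rw [succ_nsmul' a (k + 1), hm]
          linear_combination (s l * mono ((k + 1) • a) * ρ g') * hinv
        · have h1 := Submodule.smul_mem _ (MvPolynomial.X i) hk1.2
          have h2 : s l * (mono (k • a) * ρ g') ∈ V (MvPolynomial σ C0) mono ((k + 1) • A + Q) := by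
            have := mul_mem_V hm (hs l) hk.2
            rwa [← add_assoc, ← succ_nsmul'] at this
          have := Submodule.sub_mem _ h1 h2
          rw [map_mul, h]
          convert this using 1
          rw [Algebra.smul_def, succ_nsmul' a k, hm]
          linear_combination (-(s l * mono (k • a) * ρ g')) * hinv
  have all : ∃ k, R P f k := by
    clear hρf
    induction hf using Submodule.span_induction with
    | mem g hg =>
      obtain ⟨z, hz, rfl⟩ := hg
      refine ⟨0, ?_, ?_⟩
      · rw [hρm, sub_self, mul_zero]; exact W_zero _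
      · rw [hρm, zero_nsmul a, h0, one_mul, zero_nsmul A, zero_add]
        exact mono_mem (by exact_mod_cast hz)
    | zero =>
      refine ⟨0, ?_, ?_⟩
      · rw [map_zero, sub_self, mul_zero]; exact W_zero _
      · rw [map_zero, mul_zero]; exact Submodule.zero_mem _
    | add g g' _ _ hg hg' => exact Radd _ _ _ hg hg'
    | smul c g _ hg => rw [Algebra.smul_def]; exact Rsc _ _ c hg
  obtain ⟨k, hk⟩ := all
  exact ⟨k, by simpa [hρf] using hk.1⟩

end OKU
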